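import Pool.Agent.X170.PC.Stm

/-! Part L2 of MP_fa04ef_co: linear checker for indecomposable 321-avoiding words with cycles of
length at most 3, encoded in base 16. -/

namespace Pool.Agent.X191.PC

open Pool.Agent.X170.PC

def gt (W i : ℕ) : ℕ := Nat.mod (Nat.div W (Nat.pow 16 i)) 16

def cyc (W i : ℕ) : Bool :=
  or (Nat.beq (gt W (gt W i)) i) (Nat.beq (gt W (gt W (gt W i))) i)

noncomputable def pass (W n r : ℕ) : ℕ → ℕ → ℕ → Bool :=
  Nat.rec (motive := fun _ => ℕ → ℕ → ℕ → Bool) (fun _ _ _ => true)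
    (fun r ih i M m =>
      and (cyc W i) (and (Nat.ble (Nat.succ (gt W i)) n)
        (cond (Nat.ble M (gt W i))
          (and (or (Nat.beq r 0) (Nat.ble (Nat.succ i) (gt W i)))
            (ih (Nat.succ i) (Nat.succ (gt W i)) m))
          (and (Nat.ble m (gt W i)) (and (or (Nat.beq r 0) (Nat.ble (Nat.succ (Nat.succ i)) M))
            (ih (Nat.succ i) M (Nat.succ (gt W i)))))))) r

noncomputable def chk (n W : ℕ) : Bool :=
  and (Nat.ble (Nat.succ W) (Nat.pow 16 n)) (pass W n n 0 0 0)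

noncomputable def inner (n f : ℕ) : ℕ → ℕ → ℕ → Bool :=
  Nat.rec (motive := fun _ => ℕ → ℕ → ℕ → Bool) (fun _ p hi => Nat.ble p hi)
    (fun _ ih c p hi =>
      and (Nat.ble p (Nat.mod c 18446744073709551616))
        (and (chk n (Nat.mod c 18446744073709551616))
          (ih (Nat.div c 18446744073709551616)
            (Nat.succ (Nat.mod c 18446744073709551616)) hi))) f

noncomputable def chkAll (n : ℕ) (l : List (ℕ × ℕ × ℕ)) : ℕ → Bool :=
  List.rec (motive := fun _ => ℕ → Bool) (fun _ => true)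
    (fun t _ ih lo => and (inner n t.1 t.2.1 lo t.2.2) (ih t.2.2)) l

def tot (l : List (ℕ × ℕ × ℕ)) : ℕ := (l.map fun t => t.1).sum

end Pool.Agent.X191.PC
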