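import Pool.Agent.X191.PC.Chk

/-! Soundness of the checker of part L2 of MP_fa04ef_co. -/

namespace Pool.Agent.X191.PC

open Pool.Agent.X170.PC

structure PS (W n r i M m : ℕ) : Prop where
  p1 : ∀ k, i ≤ k → k < i + r → cyc W k = true ∧ gt W k < n
  p2 : ∀ k, i ≤ k → k < i + r → gt W k < M → m ≤ gt W k
  p3 : ∀ j k, i ≤ j → j < k → k < i + r → gt W j < M → gt W k < M → gt W j < gt W k
  p4 : ∀ a j k, i ≤ a → a < j → j < k → k < i + r → ¬ (gt W k < gt W j ∧ gt W j < gt W a)
  p5 : ∀ j, i < j → j < i + r → j < M ∨ ∃ a, i ≤ a ∧ a < j ∧ j ≤ gt W a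

theorem pass_succ (W n r i M m : ℕ) : pass W n (r + 1) i M m =
      and (cyc W i) (and (Nat.ble (Nat.succ (gt W i)) n)
        (cond (Nat.ble M (gt W i))
          (and (or (Nat.beq r 0) (Nat.ble (Nat.succ i) (gt W i)))
            (pass W n r (Nat.succ i) (Nat.succ (gt W i)) m))
          (and (Nat.ble m (gt W i)) (and (or (Nat.beq r 0) (Nat.ble (Nat.succ (Nat.succ i)) M))
            (pass W n r (Nat.succ i) M (Nat.succ (gt W i))))))) := rfl

theorem pass_sound (W n : ℕ) : ∀ r i M m, pass W n r i M m = true → PS W n r i M m := by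
  intro r
  induction r with
  | zero =>
    intro i M m _
    constructor <;> intros <;> omega
  | succ r ih =>
    intro i M m h
    rw [pass_succ, Bool.and_eq_true, Bool.and_eq_true] at h
    obtain ⟨hc, hn, h⟩ := h
    have hn' : gt W i < n := Nat.le_of_ble_eq_true hn
    cases hb : Nat.ble M (gt W i) with
    | true =>
      have hM : M ≤ gt W i := Nat.le_of_ble_eq_true hb
      rw [hb, cond_true, Bool.and_eq_true] at h
      obtain ⟨h5, h⟩ := h
      have I := ih _ _ _ h
      have h5' : r = 0 ∨ i + 1 ≤ gt W i := by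
        rw [Bool.or_eq_true] at h5
        rcases h5 with h5 | h5
        · exact Or.inl (Nat.eq_of_beq_eq_true h5)
        · exact Or.inr (Nat.le_of_ble_eq_true h5)
      refine ⟨?_, ?_, ?_, ?_, ?_⟩
      · intro k h1 h2
        rcases Nat.eq_or_lt_of_le h1 with rfl | h1
        · exact ⟨hc, hn'⟩
        · exact I.p1 k h1 (by omega)
      · intro k h1 h2 h3
        rcases Nat.eq_or_lt_of_le h1 with rfl | h1
        · omega
        · exact I.p2 k h1 (by omega) (by omega)
      · intro j k h1 h2 h3 h4 h5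
        rcases Nat.eq_or_lt_of_le h1 with rfl | h1
        · omega
        · exact I.p3 j k h1 h2 (by omega) (by omega) (by omega)
      · rintro a j k h1 h2 h3 h4 ⟨h5, h6⟩
        rcases Nat.eq_or_lt_of_le h1 with rfl | h1
        · have := I.p3 j k (by omega) h3 (by omega) (by omega) (by omega)
          omega
        · exact I.p4 a j k h1 h2 h3 (by omega) ⟨h5, h6⟩
      · intro j h1 h2
        by_cases hj : j = i + 1
        · exact Or.inr ⟨i, le_rfl, by omega, by omega⟩
        · rcases I.p5 j (by omega) (by omega) with h3 | ⟨a, h3, h4, h5⟩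
          · exact Or.inr ⟨i, le_rfl, by omega, by omega⟩
          · exact Or.inr ⟨a, by omega, h4, h5⟩
    | false =>
      have hM : gt W i < M := by
        by_contra hcon
        rw [Nat.ble_eq_true_of_le (not_lt.mp hcon)] at hb
        exact absurd hb (by decide)
      rw [hb, cond_false, Bool.and_eq_true, Bool.and_eq_true] at h
      obtain ⟨hm, h5, h⟩ := h
      have hm' : m ≤ gt W i := Nat.le_of_ble_eq_true hm
      have I := ih _ _ _ h
      have h5' : r = 0 ∨ i + 2 ≤ M := by
        rw [Bool.or_eq_true] at h5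
        rcases h5 with h5 | h5
        · exact Or.inl (Nat.eq_of_beq_eq_true h5)
        · exact Or.inr (Nat.le_of_ble_eq_true h5)
      refine ⟨?_, ?_, ?_, ?_, ?_⟩
      · intro k h1 h2
        rcases Nat.eq_or_lt_of_le h1 with rfl | h1
        · exact ⟨hc, hn'⟩
        · exact I.p1 k h1 (by omega)
      · intro k h1 h2 h3
        rcases Nat.eq_or_lt_of_le h1 with rfl | h1
        · exact hm'
        · have := I.p2 k h1 (by omega) (by omega)
          omega
      · intro j k h1 h2 h3 h4 h5
        rcases Nat.eq_or_lt_of_le h1 with rfl | h1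
        · have := I.p2 k (by omega) (by omega) (by omega)
          omega
        · exact I.p3 j k h1 h2 (by omega) (by omega) (by omega)
      · rintro a j k h1 h2 h3 h4 ⟨h5, h6⟩
        rcases Nat.eq_or_lt_of_le h1 with rfl | h1
        · have := I.p3 j k (by omega) h3 (by omega) (by omega) (by omega)
          omega
        · exact I.p4 a j k h1 h2 h3 (by omega) ⟨h5, h6⟩
      · intro j h1 h2
        by_cases hj : j = i + 1
        · left; omega
        · rcases I.p5 j (by omega) (by omega) with h3 | ⟨a, h3, h4, h5⟩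
          · exact Or.inl h3
          · exact Or.inr ⟨a, by omega, h4, h5⟩

def dec (n W : ℕ) : List ℕ := (List.range n).map (gt W)

theorem g_dec (n W i : ℕ) (hi : i < n) : g (dec n W) i = gt W i := by
  unfold g dec
  rw [List.getD_eq_getElem _ _ (by simpa using hi)]
  simp

theorem len_dec (n W : ℕ) : (dec n W).length = n := by simp [dec]

theorem chk_D (n W : ℕ) (h : chk n W = true) : dec n W ∈ D n ∧ W < 16 ^ n := by
  unfold chk at h
  rw [Bool.and_eq_true] at h
  obtain ⟨h1, h2⟩ := h
  have hW : W < 16 ^ n := Nat.le_of_ble_eq_true h1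
  have I := pass_sound W n n 0 0 0 h2
  have hlt : ∀ k < n, gt W k < n := fun k hk => (I.p1 k (Nat.zero_le _) (by omega)).2
  have hcy : ∀ k < n, gt W (gt W k) = k ∨ gt W (gt W (gt W k)) = k := by
    intro k hk
    have := (I.p1 k (Nat.zero_le _) (by omega)).1
    unfold cyc at this
    rw [Bool.or_eq_true] at this
    rcases this with h | h
    · exact Or.inl (Nat.eq_of_beq_eq_true h)
    · exact Or.inr (Nat.eq_of_beq_eq_true h)
  refine ⟨⟨⟨len_dec n W, ⟨?_, ?_, ?_⟩, ?_⟩, ?_⟩, hW⟩
  · -- Nodup
    have hinj : Function.Injective (fun k : Fin n => (⟨gt W k, hlt k k.2⟩ : Fin n)) := by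
      rw [Finite.injective_iff_surjective]
      intro k
      rcases hcy k k.2 with h | h
      · exact ⟨⟨gt W k, hlt k k.2⟩, Fin.ext h⟩
      · exact ⟨⟨gt W (gt W k), hlt _ (hlt k k.2)⟩, Fin.ext h⟩
    unfold dec
    refine List.Nodup.map_on ?_ List.nodup_range
    intro x hx y hy hxy
    rw [List.mem_range] at hx hy
    have := @hinj ⟨x, hx⟩ ⟨y, hy⟩ (Fin.ext hxy)
    exact congrArg Fin.val this
  · intro a ha
    rw [len_dec]
    unfold dec at ha
    rw [List.mem_map] at ha
    obtain ⟨k, hk, rfl⟩ := ha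
    exact hlt k (List.mem_range.mp hk)
  · intro i hi
    rw [len_dec] at hi
    rw [g_dec n W i hi, g_dec n W _ (hlt i hi), g_dec n W _ (hlt _ (hlt i hi))]
    exact hcy i hi
  · intro i j k hij hjk hk
    rw [len_dec] at hk
    rw [g_dec n W i (by omega), g_dec n W j (by omega), g_dec n W k hk]
    exact I.p4 i j k (Nat.zero_le _) hij hjk (by omega)
  · intro j hj hjn
    rcases I.p5 j hj (by omega) with h | ⟨a, -, h3, h4⟩
    · omega
    · exact ⟨a, h3, by rw [g_dec n W a (by omega)]; exact h4⟩

theorem gt_eq (W i : ℕ) : gt W i = W / 16 ^ i % 16 := rfl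

theorem dec_inj (n : ℕ) : ∀ W V : ℕ, W < 16 ^ n → V < 16 ^ n →
    (∀ i < n, gt W i = gt V i) → W = V := by
  induction n with
  | zero => intro W V h1 h2 _; simp at h1 h2; omega
  | succ n ih =>
    intro W V h1 h2 h
    have h0 := h 0 (Nat.succ_pos _)
    rw [gt_eq, gt_eq] at h0
    simp only [pow_zero, Nat.div_one] at h0
    have h3 : W / 16 = V / 16 := by
      refine ih _ _ ?_ ?_ ?_
      · rw [Nat.div_lt_iff_lt_mul (by norm_num)]; rw [pow_succ] at h1; exact h1
      · rw [Nat.div_lt_iff_lt_mul (by norm_num)]; rw [pow_succ] at h2; exact h2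
      · intro i hi
        have := h (i + 1) (by omega)
        rw [gt_eq, gt_eq, pow_succ'] at this
        rw [gt_eq, gt_eq, Nat.div_div_eq_div_mul, Nat.div_div_eq_div_mul]
        exact this
    omega

theorem dec_injOn (n W V : ℕ) (h1 : W < 16 ^ n) (h2 : V < 16 ^ n) (h : dec n W = dec n V) :
    W = V := by
  refine dec_inj n W V h1 h2 fun i hi => ?_
  rw [← g_dec n W i hi, ← g_dec n V i hi, h]

theorem inner_sound (n : ℕ) : ∀ f c p hi, inner n f c p hi = true →
    ∃ S : Finset ℕ, S.card = f ∧ p ≤ hi ∧ ∀ W ∈ S, p ≤ W ∧ W < hi ∧ chk n W = true := by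
  intro f
  induction f with
  | zero =>
    intro c p hi h
    exact ⟨∅, rfl, Nat.le_of_ble_eq_true h, by simp⟩
  | succ f ih =>
    intro c p hi h
    have h' : and (Nat.ble p (Nat.mod c 18446744073709551616))
        (and (chk n (Nat.mod c 18446744073709551616))
          (inner n f (Nat.div c 18446744073709551616)
            (Nat.succ (Nat.mod c 18446744073709551616)) hi)) = true := h
    rw [Bool.and_eq_true, Bool.and_eq_true] at h'
    obtain ⟨h1, h2, h3⟩ := h'
    have h1' := Nat.le_of_ble_eq_true h1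
    obtain ⟨S, hS, hS1, hS2⟩ := ih _ _ _ h3
    generalize Nat.mod c 18446744073709551616 = W at *
    refine ⟨insert W S, ?_, by omega, ?_⟩
    · rw [Finset.card_insert_of_notMem, hS]
      intro hmem
      have := (hS2 W hmem).1
      omega
    · intro V hV
      rw [Finset.mem_insert] at hV
      rcases hV with rfl | hV
      · exact ⟨h1', by omega, h2⟩
      · have := hS2 V hV
        exact ⟨by omega, this.2.1, this.2.2⟩

theorem all_sound (n : ℕ) : ∀ (l : List (ℕ × ℕ × ℕ)) (lo : ℕ), chkAll n l lo = true →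
    ∃ S : Finset ℕ, S.card = tot l ∧ ∀ W ∈ S, lo ≤ W ∧ chk n W = true := by
  intro l
  induction l with
  | nil => intro lo _; exact ⟨∅, rfl, by simp⟩
  | cons t l ih =>
    intro lo h
    have h' : and (inner n t.1 t.2.1 lo t.2.2) (chkAll n l t.2.2) = true := h
    rw [Bool.and_eq_true] at h'
    obtain ⟨S, hS, h0, hS'⟩ := inner_sound n _ _ _ _ h'.1
    obtain ⟨T, hT, hT'⟩ := ih _ h'.2
    refine ⟨S ∪ T, ?_, ?_⟩
    · rw [Finset.card_union_of_disjoint, hS, hT]
      · simp [tot]
      · rw [Finset.disjoint_left]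
        intro V h1 h2
        have := (hS' V h1).2.1
        have := (hT' V h2).1
        omega
    · intro V hV
      rw [Finset.mem_union] at hV
      rcases hV with hV | hV
      · exact ⟨(hS' V hV).1, (hS' V hV).2.2⟩
      · have := hT' V hV
        exact ⟨by omega, this.2⟩

theorem D_fin (n : ℕ) : (D n).Finite := by
  refine Set.Finite.subset (Set.finite_range (fun f : Fin n → Fin (n + 1) =>
    List.ofFn (fun i => (f i : ℕ)))) ?_
  rintro w ⟨⟨hl, hg, -⟩, -⟩
  refine ⟨fun i => ⟨w.getD i 0, ?_⟩, ?_⟩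
  · have : w.getD i 0 < w.length := by
      rw [List.getD_eq_getElem _ _ (by rw [hl]; exact i.2)]
      exact hg.2.1 _ (List.getElem_mem _)
    omega
  · refine List.ext_getElem (by simp [hl]) ?_
    intro i h1 h2
    simp [List.getElem?_eq_getElem h2]

theorem main (n : ℕ) (l : List (ℕ × ℕ × ℕ)) (h : chkAll n l 0 = true) : tot l ≤ (D n).ncard := by
  obtain ⟨S, hS, hS'⟩ := all_sound n l 0 h
  have h1 : ((S.image (dec n) : Finset (List ℕ)) : Set (List ℕ)) ⊆ D n := by
    intro w hw
    rw [Finset.mem_coe, Finset.mem_image] at hw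
    obtain ⟨W, hW, rfl⟩ := hw
    exact (chk_D n W (hS' W hW).2).1
  have h2 : (S.image (dec n)).card = S.card := by
    refine Finset.card_image_of_injOn ?_
    intro W hW V hV hWV
    exact dec_injOn n W V (chk_D n W (hS' W hW).2).2 (chk_D n V (hS' V hV).2).2 hWV
  have h3 := Set.ncard_le_ncard h1 (D_fin n)
  rw [Set.ncard_coe_finset, h2, hS] at h3
  exact h3

end Pool.Agent.X191.PC
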